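import Mathlib
import Pool.Agent.Helper450.Kneser

set_option autoImplicit false

/-!
# Signed `[0,s]`-critical numbers of cyclic groups
-/

open scoped Pointwise
open Finset Pool.Agent.Helper450.Kneser

namespace Pool.Agent.R47.SC.CriticalNumber

/-- The `h`-fold signed sumset of a finite subset `A` of `ℤ/n`. -/
def signedSumset {n : ℕ} (A : Finset (ZMod n)) (h : ℕ) : Set (ZMod n) :=
  {x | ∃ c : ZMod n → ℤ, ∑ a ∈ A, (c a).natAbs = h ∧ x = ∑ a ∈ A, c a • a}

/-- The union of the `h`-fold signed sumsets of `A` over `0 ≤ h ≤ s`. -/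
def signedUpTo {n : ℕ} (A : Finset (ZMod n)) (s : ℕ) : Set (ZMod n) :=
  {x | ∃ h : ℕ, h ≤ s ∧ x ∈ signedSumset A h}

/-- The signed `[0,s]`-critical number: the least `m` such that `[0,s]_± A = ℤ/n` for every
subset `A` of `ℤ/n` with at least `m` elements. -/
noncomputable def chiPM (n s : ℕ) : ℕ :=
  sInf {m : ℕ | ∀ A : Finset (ZMod n), m ≤ A.card → signedUpTo A s = Set.univ}

/-- The set of numbers `(2 ⌊(d - 2) / (2 h)⌋ + 1) · n / d`, over the positive divisors `d` of `n`. -/
def vSet (n h : ℕ) : Set ℤ :=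
  {z | ∃ d : ℕ, d ∈ n.divisors ∧ z = (2 * (((d : ℤ) - 2) / (2 * (h : ℤ))) + 1) * ((n / d : ℕ) : ℤ)}

/-- `v_±(n,h)`, the maximum of `vSet n h`. -/
noncomputable def vPM (n h : ℕ) : ℤ := sSup (vSet n h)

section kn

variable {G : Type*} [AddCommGroup G] [Fintype G] [DecidableEq G]

theorem dvd_card (H : AddSubgroup G) (C : Finset G) (hH : H ≤ stab C) :
    (fs H).card ∣ C.card := by
  classical
  rw [Finset.card_eq_sum_card_image (fun x : G => (QuotientAddGroup.mk x : G ⧸ H)) C]
  apply Finset.dvd_sum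
  intro q hq
  obtain ⟨x, hx, rfl⟩ := Finset.mem_image.1 hq
  have e : (C.filter (fun y => (QuotientAddGroup.mk y : G ⧸ H) = QuotientAddGroup.mk x))
      = (fs H).image (fun g => x + g) := by
    ext y
    simp only [Finset.mem_filter, Finset.mem_image]
    constructor
    · rintro ⟨hy, hxy⟩
      rw [QuotientAddGroup.eq] at hxy
      refine ⟨y - x, ?_, by abel⟩
      rw [mem_fs]
      have := H.neg_mem hxy
      convert this using 1
      abel
    · rintro ⟨g, hg, rfl⟩
      refine ⟨stab_add (hH (mem_fs.mp hg)) hx, ?_⟩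
      rw [QuotientAddGroup.eq]
      have := H.neg_mem (mem_fs.mp hg)
      convert this using 1
      abel
  rw [e, Finset.card_image_of_injective _ (add_right_injective x)]

theorem fs_add_fs (H : AddSubgroup G) : fs H + fs H = fs H := by
  apply add_fs_stab
  intro g hg x
  rw [mem_fs, mem_fs]
  exact ⟨fun hx => H.add_mem hx hg, fun hx => by
    have := H.sub_mem hx hg
    rwa [add_sub_cancel_right] at this⟩

theorem nsmul_add_fs (H : AddSubgroup G) (S : Finset G) (j : ℕ) :
    (j + 1) • (S + fs H) = (j + 1) • S + fs H := by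
  induction j with
  | zero => simp
  | succ j ih =>
    rw [succ_nsmul (S + fs H) (j + 1), ih, succ_nsmul S (j + 1), add_add_add_comm, fs_add_fs]

theorem stab_le_add (C D : Finset G) : stab C ≤ stab (C + D) := by
  intro g hg
  apply mem_stab_of_forall
  intro x hx
  obtain ⟨u, hu, v, hv, rfl⟩ := Finset.mem_add.mp hx
  have : u + v + g = (u + g) + v := by abel
  rw [this]
  exact Finset.add_mem_add (stab_add hg hu) hv

/-- Kneser's theorem for `(t+1)`-fold sumsets. -/
theorem kneser_fold (S : Finset G) (hS : S.Nonempty) (t : ℕ) :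
    (t + 1) * (S + fs (stab ((t + 1) • S))).card
      ≤ ((t + 1) • S).card + t * (fs (stab ((t + 1) • S))).card := by
  set H := stab ((t + 1) • S) with hH
  have hC : (t + 1) • S + fs H = (t + 1) • S := add_fs_stab _ _ le_rfl
  set S' := S + fs H with hS'
  have hS'ne : S'.Nonempty := hS.add (fs_nonempty H)
  have hfold : (t + 1) • S' = (t + 1) • S := by
    rw [hS', nsmul_add_fs, hC]
  have hne : ∀ j : ℕ, ((j + 1) • S').Nonempty := by
    intro j
    induction j with
    | zero => simpa using hS'ne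
    | succ j ih =>
      rw [succ_nsmul]
      exact ih.add hS'ne
  have hst : ∀ j : ℕ, j ≤ t → stab ((j + 1) • S') = H := by
    intro j hj
    apply le_antisymm
    · rcases Nat.eq_or_lt_of_le hj with h | h
      · subst h
        rw [hfold]
      · have e : (t + 1) • S' = (j + 1) • S' + (t - j) • S' := by
          rw [← add_nsmul]
          congr 1
          omega
        calc stab ((j + 1) • S') ≤ stab ((j + 1) • S' + (t - j) • S') := stab_le_add _ _
          _ = H := by rw [← e, hfold]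
    · intro g hg
      apply mem_stab_of_forall
      intro x hx
      rw [hS', nsmul_add_fs] at hx ⊢
      obtain ⟨u, hu, v, hv, rfl⟩ := Finset.mem_add.mp hx
      have hass : u + v + g = u + (v + g) := add_assoc u v g
      rw [hass]
      exact Finset.add_mem_add hu (mem_fs.mpr (H.add_mem (mem_fs.mp hv) hg))
  have key : ∀ j : ℕ, j ≤ t → (j + 1) * S'.card ≤ ((j + 1) • S').card + j * (fs H).card := by
    intro j
    induction j with
    | zero =>
      intro _
      simp
    | succ j ih =>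
      intro hj
      have h1 := ih (by omega)
      have h2 := kneser ((j + 1) • S') S' (hne j) hS'ne
      have e : (j + 1) • S' + S' = (j + 1 + 1) • S' := (succ_nsmul S' (j + 1)).symm
      rw [e, hst (j + 1) hj] at h2
      have e2 : (j + 1 + 1) * S'.card = (j + 1) * S'.card + S'.card := by ring
      have e3 : (j + 1) * (fs H).card = j * (fs H).card + (fs H).card := by ring
      rw [e2, e3]
      omega
  have := key t le_rfl
  rwa [hfold] at this

end kn

/-- A symmetric subset of `ℤ/n`, `n` odd, containing `0` has an odd number of elements. -/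
theorem odd_card {n : ℕ} [NeZero n] (hn : Odd n) (S : Finset (ZMod n)) (h0 : (0 : ZMod n) ∈ S)
    (hS : ∀ x ∈ S, -x ∈ S) : Odd S.card := by
  have hsum : ∑ _x ∈ S.erase 0, (1 : ZMod 2) = 0 := by
    apply Finset.sum_involution (fun x _ => -x)
    · intro a _
      decide
    · intro a ha _ hne
      rw [ZMod.neg_eq_self_iff] at hne
      rcases hne with hne | hne
      · exact (Finset.mem_erase.mp ha).1 hne
      · obtain ⟨k, hk⟩ := hn
        omega
    · intro a _
      exact neg_neg a
    · intro a ha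
      have ha' := Finset.mem_erase.mp ha
      exact Finset.mem_erase.mpr ⟨by simpa using ha'.1, hS a ha'.2⟩
  have h2 : (2 : ℕ) ∣ (S.erase 0).card := by
    rw [← ZMod.natCast_eq_zero_iff]
    simpa using hsum
  have h3 := Finset.card_erase_add_one h0
  obtain ⟨k, hk⟩ := h2
  exact ⟨k, by omega⟩

/-- Elements of `S = A ∪ (-A) ∪ {0}` are signed sums with one term at most. -/
theorem mem_one {n : ℕ} [NeZero n] (A : Finset (ZMod n)) (x : ZMod n)
    (hx : x ∈ A ∪ A.image (fun y => -y) ∪ {0}) :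
    ∃ c : ZMod n → ℤ, ∑ a ∈ A, (c a).natAbs ≤ 1 ∧ x = ∑ a ∈ A, c a • a := by
  classical
  rw [Finset.mem_union, Finset.mem_union, Finset.mem_image, Finset.mem_singleton] at hx
  rcases hx with (hx | ⟨y, hy, rfl⟩) | rfl
  · refine ⟨fun a => if a = x then 1 else 0, ?_, ?_⟩
    · have : ∀ a ∈ A, (if a = x then (1 : ℤ) else 0).natAbs = if a = x then 1 else 0 := by
        intro a _
        split_ifs <;> rfl
      rw [Finset.sum_congr rfl this, Finset.sum_ite_eq' A x (fun _ => 1)]
      split_ifs <;> omega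
    · have : ∀ a ∈ A, (if a = x then (1 : ℤ) else 0) • a = if a = x then a else 0 := by
        intro a _
        split_ifs <;> simp
      rw [Finset.sum_congr rfl this, Finset.sum_ite_eq' A x (fun a => a), if_pos hx]
  · refine ⟨fun a => if a = y then -1 else 0, ?_, ?_⟩
    · have : ∀ a ∈ A, (if a = y then (-1 : ℤ) else 0).natAbs = if a = y then 1 else 0 := by
        intro a _
        split_ifs <;> rfl
      rw [Finset.sum_congr rfl this, Finset.sum_ite_eq' A y (fun _ => 1)]
      split_ifs <;> omega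
    · have : ∀ a ∈ A, (if a = y then (-1 : ℤ) else 0) • a = if a = y then -a else 0 := by
        intro a _
        split_ifs <;> simp
      rw [Finset.sum_congr rfl this, Finset.sum_ite_eq' A y (fun a => -a), if_pos hy]
  · exact ⟨fun _ => 0, by simp, by simp⟩

theorem mem_fold {n : ℕ} [NeZero n] (A : Finset (ZMod n)) (t : ℕ) :
    ∀ x : ZMod n, x ∈ (t + 1) • (A ∪ A.image (fun y => -y) ∪ {0}) →
    ∃ c : ZMod n → ℤ, ∑ a ∈ A, (c a).natAbs ≤ t + 1 ∧ x = ∑ a ∈ A, c a • a := by
  classical
  induction t with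
  | zero =>
    intro x hx
    rw [zero_add, one_nsmul] at hx
    exact mem_one A x hx
  | succ t ih =>
    intro x hx
    rw [succ_nsmul] at hx
    obtain ⟨u, hu, v, hv, rfl⟩ := Finset.mem_add.mp hx
    obtain ⟨c1, h1, e1⟩ := ih u hu
    obtain ⟨c2, h2, e2⟩ := mem_one A v hv
    refine ⟨fun a => c1 a + c2 a, ?_, ?_⟩
    · have : ∑ a ∈ A, (c1 a + c2 a).natAbs ≤ ∑ a ∈ A, ((c1 a).natAbs + (c2 a).natAbs) := by
        apply Finset.sum_le_sum
        intro a _
        omega
      rw [Finset.sum_add_distrib] at this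
      show ∑ a ∈ A, (c1 a + c2 a).natAbs ≤ t + 1 + 1
      omega
    · rw [e1, e2, ← Finset.sum_add_distrib]
      apply Finset.sum_congr rfl
      intro a _
      rw [add_smul]

/-- The odd case: if `[0,t+1]_± A ≠ ℤ/n` then `|A| ≤ (2 ⌊(d-2)/(2(t+1))⌋ + 1) n/d` for some
divisor `d` of `n`. -/
theorem odd_case {n : ℕ} [NeZero n] (hn : Odd n) (A : Finset (ZMod n)) (t : ℕ)
    (hne : signedUpTo A (t + 1) ≠ Set.univ) :
    ∃ z ∈ vSet n (t + 1), (A.card : ℤ) ≤ z := by
  classical
  set S : Finset (ZMod n) := A ∪ A.image (fun y => -y) ∪ {0} with hS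
  have hAS : A ⊆ S := by
    intro y hy
    rw [hS, Finset.mem_union, Finset.mem_union]
    exact Or.inl (Or.inl hy)
  have h0 : (0 : ZMod n) ∈ S := by
    rw [hS, Finset.mem_union, Finset.mem_singleton]
    exact Or.inr rfl
  have hsym : ∀ x ∈ S, -x ∈ S := by
    intro y hy
    rw [hS, Finset.mem_union, Finset.mem_union, Finset.mem_image, Finset.mem_singleton] at hy ⊢
    rcases hy with (hy | ⟨z, hz, rfl⟩) | rfl
    · exact Or.inl (Or.inr ⟨y, hy, rfl⟩)
    · exact Or.inl (Or.inl (by simpa using hz))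
    · exact Or.inr (by simp)
  have hnu : (t + 1) • S ≠ Finset.univ := by
    intro hu
    apply hne
    rw [Set.eq_univ_iff_forall]
    intro x
    have hx : x ∈ (t + 1) • S := by rw [hu]; exact Finset.mem_univ x
    obtain ⟨c, hc, e⟩ := mem_fold A t x hx
    exact ⟨_, hc, c, rfl, e⟩
  set H := stab ((t + 1) • S) with hH
  have hk := kneser_fold S ⟨0, h0⟩ t
  rw [← hH] at hk
  set S' := S + fs H with hS'
  have hSS' : S ⊆ S' := by
    intro x hx
    have := Finset.add_mem_add hx (mem_fs.mpr H.zero_mem)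
    rwa [add_zero] at this
  have hodd : Odd S'.card := by
    apply odd_card hn S' (hSS' h0)
    intro x hx
    obtain ⟨u, hu, v, hv, rfl⟩ := Finset.mem_add.mp hx
    rw [neg_add]
    exact Finset.add_mem_add (hsym u hu) (mem_fs.mpr (H.neg_mem (mem_fs.mp hv)))
  have hd1 : (fs H).card ∣ S'.card := by
    apply dvd_card
    intro g hg
    apply mem_stab_of_forall
    intro x hx
    obtain ⟨u, hu, v, hv, rfl⟩ := Finset.mem_add.mp hx
    rw [add_assoc]
    exact Finset.add_mem_add hu (mem_fs.mpr (H.add_mem (mem_fs.mp hv) hg))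
  have hd2 : (fs H).card ∣ ((t + 1) • S).card := dvd_card H _ le_rfl
  have hd3 : (fs H).card ∣ n := by
    have := dvd_card H (Finset.univ : Finset (ZMod n)) (by
      intro g _
      apply mem_stab_of_forall
      intro x _
      exact Finset.mem_univ _)
    rwa [Finset.card_univ, ZMod.card] at this
  have hlt : ((t + 1) • S).card < n := by
    have h1 : ((t + 1) • S).card ≤ n := by
      have := Finset.card_le_univ ((t + 1) • S)
      rwa [ZMod.card] at this
    apply lt_of_le_of_ne h1
    intro h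
    apply hnu
    apply Finset.eq_univ_of_card
    rw [ZMod.card]
    exact h
  have hcardS : A.card ≤ S'.card := Finset.card_le_card (hAS.trans hSS')
  obtain ⟨r, hr⟩ := hd1
  obtain ⟨c, hc⟩ := hd2
  obtain ⟨d, hd⟩ := hd3
  set h := (fs H).card with hh
  have hpos : 0 < h := fs_card_pos H
  have hcd : c < d := by
    by_contra hcon
    push Not at hcon
    have : h * d ≤ h * c := Nat.mul_le_mul_left h hcon
    omega
  have h1 : (t + 1) * r ≤ c + t := by
    by_contra hcon
    push Not at hcon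
    have h3 : h * (c + t + 1) ≤ h * ((t + 1) * r) := Nat.mul_le_mul_left h hcon
    have e1 : h * (c + t + 1) = h * c + t * h + h := by ring
    have e2 : h * ((t + 1) * r) = (t + 1) * (h * r) := by ring
    rw [hr, hc] at hk
    omega
  have hrodd : Odd r := by
    rw [hr] at hodd
    exact (Nat.odd_mul.mp hodd).2
  obtain ⟨k, hk'⟩ := hrodd
  have hdpos : 0 < d := by omega
  refine ⟨_, ⟨d, Nat.mem_divisors.mpr ⟨⟨h, by rw [hd]; ring⟩, NeZero.ne n⟩, rfl⟩, ?_⟩
  have hnd : n / d = h := by
    rw [hd]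
    exact Nat.mul_div_cancel h hdpos
  rw [hnd]
  have h2 : (k : ℤ) ≤ ((d : ℤ) - 2) / (2 * ((t + 1 : ℕ) : ℤ)) := by
    rw [Int.le_ediv_iff_mul_le (by positivity)]
    have h4 : (t + 1) * (2 * k + 1) ≤ c + t := by rw [← hk']; exact h1
    have h5 : (t + 1) * (2 * k + 1) = 2 * (k * (t + 1)) + t + 1 := by ring
    have h6 : 2 * (k * (t + 1)) + 2 ≤ d := by omega
    have h7 : (2 * ((k : ℤ) * ((t : ℤ) + 1)) + 2) ≤ (d : ℤ) := by exact_mod_cast h6
    push_cast
    linarith
  have h3 : (A.card : ℤ) ≤ (h : ℤ) * (2 * k + 1) := by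
    have : A.card ≤ h * (2 * k + 1) := by rw [← hk', ← hr]; exact hcardS
    exact_mod_cast this
  have hh0 : (0 : ℤ) ≤ h := by positivity
  calc (A.card : ℤ) ≤ (h : ℤ) * (2 * k + 1) := h3
    _ ≤ (h : ℤ) * (2 * (((d : ℤ) - 2) / (2 * ((t + 1 : ℕ) : ℤ))) + 1) := by
        apply mul_le_mul_of_nonneg_left _ hh0
        linarith
    _ = _ := by ring

/-- The even case. -/
theorem even_case {n : ℕ} [NeZero n] (hn : Even n) (A : Finset (ZMod n)) (s : ℕ) (hs : 1 ≤ s)
    (hne : signedUpTo A s ≠ Set.univ) :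
    ∃ z ∈ vSet n s, (A.card : ℤ) ≤ z := by
  classical
  have hn0 : n ≠ 0 := NeZero.ne n
  obtain ⟨m, hm⟩ := hn
  rcases Nat.eq_or_lt_of_le hs with h1 | h2
  · -- s = 1
    subst h1
    refine ⟨_, ⟨n, Nat.mem_divisors.mpr ⟨dvd_rfl, hn0⟩, rfl⟩, ?_⟩
    rw [Nat.div_self (Nat.pos_of_ne_zero hn0)]
    have hlt : A.card < n := by
      have h1 : A.card ≤ n := by
        have := Finset.card_le_univ A
        rwa [ZMod.card] at this
      apply lt_of_le_of_ne h1
      intro h
      apply hne
      have hA : A = Finset.univ := by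
        apply Finset.eq_univ_of_card
        rw [ZMod.card]
        exact h
      rw [Set.eq_univ_iff_forall]
      intro x
      obtain ⟨c, hc, e⟩ := mem_one A x (by
        rw [Finset.mem_union, Finset.mem_union]
        exact Or.inl (Or.inl (by rw [hA]; exact Finset.mem_univ x)))
      exact ⟨_, hc, c, rfl, e⟩
    have e : ((n : ℤ) - 2) / (2 * ((1 : ℕ) : ℤ)) = (m : ℤ) - 1 := by
      have : (n : ℤ) = m + m := by exact_mod_cast hm
      rw [this]
      push_cast
      omega
    rw [e]
    have : (n : ℤ) = m + m := by exact_mod_cast hm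
    have h3 : (A.card : ℤ) < n := by exact_mod_cast hlt
    push_cast
    linarith
  · -- s ≥ 2
    refine ⟨_, ⟨2, Nat.mem_divisors.mpr ⟨⟨m, by omega⟩, hn0⟩, rfl⟩, ?_⟩
    have hle : A.card ≤ m := by
      by_contra hcon
      push Not at hcon
      apply hne
      rw [Set.eq_univ_iff_forall]
      intro x
      have hint : (A ∩ A.image (fun y => x - y)).Nonempty := by
        apply Finset.inter_nonempty_of_card_lt_card_add_card (Finset.subset_univ _)
          (Finset.subset_univ _)
        rw [Finset.card_image_of_injective _ (sub_right_injective), Finset.card_univ, ZMod.card]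
        omega
      obtain ⟨u, hu⟩ := hint
      rw [Finset.mem_inter, Finset.mem_image] at hu
      obtain ⟨hu, v, hv, rfl⟩ := hu
      obtain ⟨c1, h1, e1⟩ := mem_one A (x - v) (by
        rw [Finset.mem_union, Finset.mem_union]; exact Or.inl (Or.inl hu))
      obtain ⟨c2, h2', e2⟩ := mem_one A v (by
        rw [Finset.mem_union, Finset.mem_union]; exact Or.inl (Or.inl hv))
      refine ⟨∑ a ∈ A, (c1 a + c2 a).natAbs, ?_, fun a => c1 a + c2 a, rfl, ?_⟩
      · have : ∑ a ∈ A, (c1 a + c2 a).natAbs ≤ ∑ a ∈ A, ((c1 a).natAbs + (c2 a).natAbs) := by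
          apply Finset.sum_le_sum
          intro a _
          omega
        rw [Finset.sum_add_distrib] at this
        omega
      · have ex : x = (x - v) + v := by abel
        calc x = (x - v) + v := ex
          _ = ∑ a ∈ A, c1 a • a + ∑ a ∈ A, c2 a • a := by rw [← e1, ← e2]
          _ = ∑ a ∈ A, (c1 a + c2 a) • a := by
            rw [← Finset.sum_add_distrib]
            apply Finset.sum_congr rfl
            intro a _
            rw [add_smul]
    have e : (((2 : ℕ) : ℤ) - 2) / (2 * (s : ℤ)) = 0 := by simp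
    rw [e]
    have : n / 2 = m := by omega
    rw [this]
    have : (A.card : ℤ) ≤ m := by exact_mod_cast hle
    linarith

/-- The lower bound: a set which is a union of consecutive cosets. -/
theorem lower {n : ℕ} [NeZero n] (d : ℕ) (hd : d ∣ n) (hd2 : 2 ≤ d) (s : ℕ) (hs : 1 ≤ s) :
    ∃ A : Finset (ZMod n),
      (A.card : ℤ) = (2 * (((d : ℤ) - 2) / (2 * (s : ℤ))) + 1) * ((n / d : ℕ) : ℤ) ∧
      signedUpTo A s ≠ Set.univ := by
  classical
  obtain ⟨e, he⟩ := hd
  have hdpos : 0 < d := by omega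
  have hnd : n / d = e := by
    rw [he]
    exact Nat.mul_div_cancel_left e hdpos
  rw [hnd]
  have hspos : (0 : ℤ) < 2 * (s : ℤ) := by
    have : (1 : ℤ) ≤ s := by exact_mod_cast hs
    linarith
  set q : ℤ := ((d : ℤ) - 2) / (2 * (s : ℤ)) with hq
  have hq0 : 0 ≤ q := by
    apply Int.ediv_nonneg
    · have : (2 : ℤ) ≤ d := by exact_mod_cast hd2
      linarith
    · linarith
  have hq1 : q * (2 * (s : ℤ)) ≤ (d : ℤ) - 2 := Int.ediv_mul_le _ (ne_of_gt hspos)
  have hs1 : (1 : ℤ) ≤ s := by exact_mod_cast hs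
  have hq2 : 2 * q ≤ (d : ℤ) - 2 := by nlinarith
  let f : ℤ × ℤ → ZMod n := fun p => ((p.1 + d * p.2 : ℤ) : ZMod n)
  have hdn : (d : ℕ) ∣ n := ⟨e, he⟩
  have hinj : ∀ p ∈ (Finset.Icc (-q) q ×ˢ Finset.Ico (0 : ℤ) e : Finset (ℤ × ℤ)),
      ∀ p' ∈ (Finset.Icc (-q) q ×ˢ Finset.Ico (0 : ℤ) e : Finset (ℤ × ℤ)), f p = f p' → p = p' := by
    rintro ⟨i, j⟩ hp ⟨i', j'⟩ hp' hff
    rw [Finset.mem_product, Finset.mem_Icc, Finset.mem_Ico] at hp hp'
    simp only at hp hp'
    have h1 : ((n : ℕ) : ℤ) ∣ (i' + d * j') - (i + d * j) :=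
      (ZMod.intCast_eq_intCast_iff_dvd_sub _ _ _).mp hff
    have h2 : ((d : ℕ) : ℤ) ∣ i' - i := by
      have h3 : ((d : ℕ) : ℤ) ∣ (i' + d * j') - (i + d * j) :=
        dvd_trans (by exact_mod_cast hdn) h1
      have h4 : (i' + d * j') - (i + d * j) = (i' - i) + d * (j' - j) := by ring
      rw [h4] at h3
      exact (Int.dvd_add_left (Dvd.intro _ rfl)).mp h3
    have h5 : i' - i = 0 := by
      apply Int.eq_zero_of_abs_lt_dvd h2
      rw [abs_lt]
      constructor
      · linarith [hp.1.1, hp.1.2, hp'.1.1, hp'.1.2]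
      · linarith [hp.1.1, hp.1.2, hp'.1.1, hp'.1.2]
    have h6 : i' = i := by linarith
    subst h6
    have h7 : (d : ℤ) * (e : ℤ) ∣ (d : ℤ) * (j' - j) := by
      have : ((n : ℕ) : ℤ) = (d : ℤ) * (e : ℤ) := by rw [he]; push_cast; ring
      rw [← this]
      convert h1 using 1
      ring
    have h8 : (e : ℤ) ∣ j' - j :=
      Int.dvd_of_mul_dvd_mul_left (by exact_mod_cast hdpos.ne') h7
    have h9 : j' - j = 0 := by
      apply Int.eq_zero_of_abs_lt_dvd h8
      rw [abs_lt]
      constructor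
      · linarith [hp.2.1, hp.2.2, hp'.2.1, hp'.2.2]
      · linarith [hp.2.1, hp.2.2, hp'.2.1, hp'.2.2]
    have h10 : j' = j := by linarith
    rw [h10]
  refine ⟨(Finset.Icc (-q) q ×ˢ Finset.Ico (0 : ℤ) e).image f, ?_, ?_⟩
  · rw [Finset.card_image_of_injOn (fun p hp p' hp' h => hinj p hp p' hp' h), Finset.card_product,
      Int.card_Icc, Int.card_Ico]
    have h1 : (((q + 1 - -q).toNat : ℕ) : ℤ) = 2 * q + 1 := by
      rw [Int.toNat_of_nonneg (by linarith)]
      ring
    have h2 : ((((e : ℤ) - 0).toNat : ℕ) : ℤ) = e := by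
      rw [sub_zero, Int.toNat_natCast]
    rw [Nat.cast_mul, h1, h2]
  · intro hcon
    have hx : (((s : ℤ) * q + 1 : ℤ) : ZMod n) ∈
        signedUpTo ((Finset.Icc (-q) q ×ˢ Finset.Ico (0 : ℤ) e).image f) s := by
      rw [hcon]; exact Set.mem_univ _
    obtain ⟨h, hhs, c, hc, hx⟩ := hx
    -- choose representatives
    have hrep : ∀ a : ZMod n, ∃ i : ℤ, (a ∈ (Finset.Icc (-q) q ×ˢ Finset.Ico (0 : ℤ) e).image f →
        -q ≤ i ∧ i ≤ q ∧ ZMod.castHom hdn (ZMod d) a = (i : ZMod d)) := by
      intro a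
      by_cases ha : a ∈ (Finset.Icc (-q) q ×ˢ Finset.Ico (0 : ℤ) e).image f
      · obtain ⟨⟨i, j⟩, hp, rfl⟩ := Finset.mem_image.mp ha
        rw [Finset.mem_product, Finset.mem_Icc] at hp
        refine ⟨i, fun _ => ⟨hp.1.1, hp.1.2, ?_⟩⟩
        show ZMod.castHom hdn (ZMod d) ((i + d * j : ℤ) : ZMod n) = (i : ZMod d)
        rw [map_intCast]
        push_cast
        simp
      · exact ⟨0, fun h => absurd h ha⟩
    choose ι hι using hrep
    have hmap := congrArg (ZMod.castHom hdn (ZMod d)) hx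
    rw [map_intCast, map_sum] at hmap
    have hsum : ∑ a ∈ (Finset.Icc (-q) q ×ˢ Finset.Ico (0 : ℤ) e).image f,
        ZMod.castHom hdn (ZMod d) (c a • a)
        = ((∑ a ∈ (Finset.Icc (-q) q ×ˢ Finset.Ico (0 : ℤ) e).image f, c a * ι a : ℤ) : ZMod d) := by
      push_cast
      apply Finset.sum_congr rfl
      intro a ha
      rw [map_zsmul, (hι a ha).2.2, zsmul_eq_mul]
    rw [hsum] at hmap
    have hdvd := (ZMod.intCast_eq_intCast_iff_dvd_sub _ _ _).mp hmap
    set I : ℤ := ∑ a ∈ (Finset.Icc (-q) q ×ˢ Finset.Ico (0 : ℤ) e).image f, c a * ι a with hI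
    have habs : |I| ≤ (s : ℤ) * q := by
      calc |I| ≤ ∑ a ∈ (Finset.Icc (-q) q ×ˢ Finset.Ico (0 : ℤ) e).image f, |c a * ι a| :=
            Finset.abs_sum_le_sum_abs _ _
        _ ≤ ∑ a ∈ (Finset.Icc (-q) q ×ˢ Finset.Ico (0 : ℤ) e).image f, ((c a).natAbs : ℤ) * q := by
            apply Finset.sum_le_sum
            intro a ha
            rw [abs_mul, Int.natCast_natAbs]
            apply mul_le_mul_of_nonneg_left _ (abs_nonneg _)
            rw [abs_le]
            exact ⟨(hι a ha).1, (hι a ha).2.1⟩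
        _ = (h : ℤ) * q := by
            rw [← Finset.sum_mul, ← hc]
            push_cast
            rfl
        _ ≤ (s : ℤ) * q := by
            apply mul_le_mul_of_nonneg_right _ hq0
            exact_mod_cast hhs
    rw [abs_le] at habs
    have hz : I - ((s : ℤ) * q + 1) = 0 := by
      apply Int.eq_zero_of_abs_lt_dvd hdvd
      rw [abs_lt]
      constructor
      · nlinarith
      · nlinarith
    linarith

/-- **Main theorem.**  For all positive integers `n` and `s`, the number `v_±(n,s)` is the maximum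
of the defining set and the signed `[0,s]`-critical number of `ℤ/n` is `v_±(n,s) + 1`. -/
theorem result : ∀ n s : ℕ, 0 < n → 0 < s →
    IsGreatest (vSet n s) (vPM n s) ∧ (chiPM n s : ℤ) = vPM n s + 1 := by
  intro n s hn hs
  have : NeZero n := ⟨hn.ne'⟩
  obtain ⟨d0, hd0, hmax⟩ := Finset.exists_max_image n.divisors
    (fun d : ℕ => (2 * (((d : ℤ) - 2) / (2 * (s : ℤ))) + 1) * ((n / d : ℕ) : ℤ))
    ⟨1, Nat.mem_divisors.mpr ⟨one_dvd n, hn.ne'⟩⟩
  have hgr : IsGreatest (vSet n s)
      ((2 * (((d0 : ℤ) - 2) / (2 * (s : ℤ))) + 1) * ((n / d0 : ℕ) : ℤ)) := by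
    refine ⟨⟨d0, hd0, rfl⟩, ?_⟩
    rintro z ⟨d, hd, rfl⟩
    exact hmax d hd
  have hv : vPM n s = (2 * (((d0 : ℤ) - 2) / (2 * (s : ℤ))) + 1) * ((n / d0 : ℕ) : ℤ) :=
    hgr.csSup_eq
  rw [← hv] at hgr
  refine ⟨hgr, ?_⟩
  -- upper bound
  have hup : ∀ A : Finset (ZMod n), vPM n s + 1 ≤ (A.card : ℤ) → signedUpTo A s = Set.univ := by
    intro A hA
    by_contra hne
    have : ∃ z ∈ vSet n s, (A.card : ℤ) ≤ z := by
      rcases Nat.even_or_odd n with hev | hodd
      · exact even_case hev A s hs hne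
      · obtain ⟨t, rfl⟩ : ∃ t, s = t + 1 := ⟨s - 1, by omega⟩
        exact odd_case hodd A t hne
    obtain ⟨z, hz, hzA⟩ := this
    have := hgr.2 hz
    linarith
  -- lower bound
  have hlow : ∀ m : ℕ, (∀ A : Finset (ZMod n), m ≤ A.card → signedUpTo A s = Set.univ) →
      vPM n s + 1 ≤ (m : ℤ) := by
    intro m hm
    rcases Nat.lt_or_ge d0 2 with h1 | h2
    · have hd01 : d0 = 1 := by
        have := Nat.pos_of_mem_divisors hd0
        omega
      have e : (((1 : ℕ) : ℤ) - 2) / (2 * (s : ℤ)) = -1 := by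
        have hs' : (0 : ℤ) < 2 * (s : ℤ) := by positivity
        rw [Int.ediv_eq_iff_of_pos hs']
        constructor
        · push_cast
          linarith
        · push_cast
          linarith
      have hn1 : (1 : ℤ) ≤ n := by exact_mod_cast hn
      have : (0 : ℤ) ≤ m := by positivity
      rw [hv, hd01, e, Nat.div_one]
      linarith
    · obtain ⟨A, hA, hne⟩ := lower d0 (Nat.dvd_of_mem_divisors hd0) h2 s hs
      rw [← hv] at hA
      by_contra hcon
      push Not at hcon
      apply hne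
      apply hm A
      have : (m : ℤ) ≤ A.card := by rw [hA]; linarith
      exact_mod_cast this
  -- conclusion
  have hmem : (vPM n s + 1).toNat ∈
      {m : ℕ | ∀ A : Finset (ZMod n), m ≤ A.card → signedUpTo A s = Set.univ} := by
    intro A hA
    apply hup A
    exact Int.toNat_le.mp hA
  have hle1 : chiPM n s ≤ (vPM n s + 1).toNat := Nat.sInf_le hmem
  have hin : ∀ A : Finset (ZMod n), chiPM n s ≤ A.card → signedUpTo A s = Set.univ :=
    Nat.sInf_mem (s := {m : ℕ | ∀ A : Finset (ZMod n), m ≤ A.card →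
      signedUpTo A s = Set.univ}) ⟨_, hmem⟩
  have h1 := hlow _ hin
  have hv1 : -1 ≤ vPM n s := by
    have h2 := hgr.2 ⟨n, Nat.mem_divisors.mpr ⟨dvd_rfl, hn.ne'⟩, rfl⟩
    rw [Nat.div_self hn] at h2
    have h3 : (-1 : ℤ) ≤ ((n : ℤ) - 2) / (2 * (s : ℤ)) := by
      have hs' : (0 : ℤ) < 2 * (s : ℤ) := by positivity
      rw [Int.le_ediv_iff_mul_le hs']
      have hn1 : (1 : ℤ) ≤ n := by exact_mod_cast hn
      have hs1 : (1 : ℤ) ≤ s := by exact_mod_cast hs
      linarith
    push_cast at h2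
    linarith
  omega

end Pool.Agent.R47.SC.CriticalNumber
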